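import Pool.Agent.helper36.UT.Spec

/-! Project UT, row ODD: a function without constant term has even values. -/

set_option autoImplicit false

open Filter Polynomial FirstOrder FirstOrder.Language

namespace Pool.Agent.UnivT

theorem ODD_list (l : List (ℚ × (ℕ → ℤ))) (hl : ∀ x ∈ l, Tendsto x.2 atTop atTop) :
    ∃ b : ℤ, Odd b ∧ ∀ᶠ H : ℕ in atTop, ∃ z : ℤ, (b : ℚ) * ev l H = 2 * (z : ℚ) := by
  induction l with
  | nil =>
    refine ⟨1, odd_one, Eventually.of_forall fun H => ⟨0, ?_⟩⟩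
    simp [ev]
  | cons y l ih =>
    obtain ⟨b, hb, hz⟩ := ih fun x hx => hl x (List.mem_cons_of_mem _ hx)
    obtain ⟨c, b', hb', hden⟩ := Nat.exists_eq_two_pow_mul_odd y.1.den_nz
    have hy : ∀ᶠ H : ℕ in atTop, (c : ℤ) + 1 ≤ y.2 H :=
      (hl y List.mem_cons_self).eventually_ge_atTop _
    refine ⟨(b' : ℤ) * b, ?_, ?_⟩
    · exact (Int.odd_mul.2 ⟨by exact_mod_cast hb', hb⟩)
    · filter_upwards [hz, hy] with H hz hy
      obtain ⟨z, hz⟩ := hz
      obtain ⟨t, ht⟩ : ∃ t : ℕ, y.2 H = ((c + 1 + t : ℕ) : ℤ) := ⟨(y.2 H - (c + 1)).toNat, by push_cast; omega⟩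
      have h1 : (b' : ℚ) * (y.1 * (2 : ℚ) ^ (y.2 H)) = 2 * ((y.1.num : ℚ) * 2 ^ t) := by
        rw [ht, zpow_natCast]
        have h2 : y.1 * (y.1.den : ℚ) = (y.1.num : ℚ) := Rat.mul_den_eq_num y.1
        rw [hden] at h2
        push_cast at h2
        rw [← h2, pow_add, pow_add]
        ring
      refine ⟨b * (y.1.num * 2 ^ t) + b' * z, ?_⟩
      have h3 : ev (y :: l) H = y.1 * (2 : ℚ) ^ (y.2 H) + ev l H := by
        simp [ev]
      rw [h3]
      push_cast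
      calc (b' : ℚ) * b * (y.1 * (2 : ℚ) ^ (y.2 H) + ev l H)
          = b * (b' * (y.1 * (2 : ℚ) ^ (y.2 H))) + b' * (b * ev l H) := by ring
        _ = b * (2 * ((y.1.num : ℚ) * 2 ^ t)) + b' * (2 * z) := by rw [h1, hz]
        _ = 2 * (b * (y.1.num * 2 ^ t) + b' * z) := by ring

theorem ODD : ODD_stmt := by
  intro k l x hx
  obtain ⟨h1, -, h3⟩ := hx
  obtain ⟨b, hb, hz⟩ := ODD_list l fun y hy => (h1 y hy).2.2
  filter_upwards [h3, hz] with H h3 hz
  obtain ⟨z, hz⟩ := hz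
  rw [zero_add] at h3
  rw [← h3] at hz
  have h4 : b * x H = 2 * z := by exact_mod_cast hz
  have h5 : Even (b * x H) := ⟨z, by rw [h4]; ring⟩
  rcases Int.even_mul.1 h5 with h6 | h6
  · exact absurd hb (Int.not_odd_iff_even.2 h6)
  · exact even_iff_two_dvd.1 h6

end Pool.Agent.UnivT
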